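import Pool.Agent.K3h22.EX.Stm3

/-! UNIT2 (helper48 for helper22): exponential monomials are linearly independent on
`M [-1, 1]^s`. -/

set_option autoImplicit false

namespace Pool.Agent.K3h48.EX

open Polynomial Filter Topology Set Pool.Agent.K3h22.EX

section one

/-- translation by `h` -/
noncomputable def tr (h : ℂ) : Module.End ℂ (ℂ → ℂ) := LinearMap.funLeft ℂ ℂ fun t => t + h

/-- `q(t) exp(μ t)` -/
noncomputable def ep (q : ℂ[X]) (μ : ℂ) : ℂ → ℂ := fun t => q.eval t * Complex.exp (μ * t)

lemma tr_ep (h μ : ℂ) (q : ℂ[X]) :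
    (tr h - Complex.exp (μ * h) • (1 : Module.End ℂ (ℂ → ℂ))) (ep q μ) =
      ep (C (Complex.exp (μ * h)) * (q.comp (X + C h) - q)) μ := by
  funext t
  simp only [tr, ep, LinearMap.sub_apply, LinearMap.smul_apply, Module.End.one_apply,
    Pi.sub_apply, Pi.smul_apply, LinearMap.funLeft_apply, smul_eq_mul, eval_mul, eval_C, eval_sub,
    eval_comp, eval_add, eval_X]
  rw [mul_add, Complex.exp_add]
  ring

lemma degree_lt (h : ℂ) (q : ℂ[X]) (hq : q.comp (X + C h) - q ≠ 0) :
    (q.comp (X + C h) - q).natDegree < q.natDegree := by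
  have hq0 : q ≠ 0 := by
    rintro rfl
    simp at hq
  have h1 : (q.comp (X + C h)).natDegree = q.natDegree := by
    rw [natDegree_comp, natDegree_X_add_C, mul_one]
  have hc0 : q.comp (X + C h) ≠ 0 := by
    intro h0
    have := congrArg (fun p => p.comp (X - C h)) h0
    simp only [comp_assoc] at this
    simp at this
    exact hq0 this
  have hl : (q.comp (X + C h)).leadingCoeff = q.leadingCoeff := by
    rw [leadingCoeff_comp (by simp)]
    simp
  have h2 : (q.comp (X + C h) - q).degree < (q.comp (X + C h)).degree :=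
    degree_sub_lt_left (by rw [degree_eq_natDegree hc0, degree_eq_natDegree hq0, h1]) hc0 hl
  have h3 := natDegree_lt_natDegree hq h2
  rwa [h1] at h3

lemma mem_gen (h μ : ℂ) : ∀ (n : ℕ) (q : ℂ[X]), (q ≠ 0 → q.natDegree < n) →
    ep q μ ∈ (tr h).maxGenEigenspace (Complex.exp (μ * h)) := by
  intro n
  induction n with
  | zero =>
    intro q hq
    have : q = 0 := by
      by_contra h0
      exact absurd (hq h0) (Nat.not_lt_zero _)
    subst this
    have : ep 0 μ = 0 := by
      funext t
      simp [ep]
    rw [this]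
    exact Submodule.zero_mem _
  | succ n ih =>
    intro q hq
    have h1 := ih (C (Complex.exp (μ * h)) * (q.comp (X + C h) - q)) (by
      intro h0
      have h2 : q.comp (X + C h) - q ≠ 0 := right_ne_zero_of_mul h0
      have h3 := degree_lt h q h2
      have hq0 : q ≠ 0 := by
        rintro rfl
        simp at h2
      have h4 : (C (Complex.exp (μ * h)) * (q.comp (X + C h) - q)).natDegree ≤
        (q.comp (X + C h) - q).natDegree := natDegree_C_mul_le _ _
      have := hq hq0
      omega)
    rw [← tr_ep, Module.End.mem_maxGenEigenspace] at h1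
    obtain ⟨k, hk⟩ := h1
    rw [Module.End.mem_maxGenEigenspace]
    refine ⟨k + 1, ?_⟩
    rw [pow_succ, Module.End.mul_apply]
    exact hk

/-- one variable: distinct frequencies are independent over the polynomials -/
lemma one_var {ι : Type} (s : Finset ι) (μ : ι → ℂ) (hμ : Set.InjOn μ s) (q : ι → ℂ[X])
    (h0 : ∀ t : ℂ, ∑ i ∈ s, (q i).eval t * Complex.exp (μ i * t) = 0) :
    ∀ i ∈ s, ∀ t, (q i).eval t = 0 := by
  classical
  -- choose a small translation
  obtain ⟨B, hB0, hB⟩ : ∃ B : ℝ, 0 ≤ B ∧ ∀ i ∈ s, ‖μ i‖ ≤ B :=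
    ⟨∑ i ∈ s, ‖μ i‖, Finset.sum_nonneg fun i _ => norm_nonneg _, fun i hi =>
      Finset.single_le_sum (f := fun i => ‖μ i‖) (fun j _ => norm_nonneg _) hi⟩
  set h : ℂ := ((1 / (1 + 2 * B) : ℝ) : ℂ) with hh
  have hpos : (0 : ℝ) < 1 + 2 * B := by linarith
  have hh0 : h ≠ 0 := by
    rw [hh]
    exact_mod_cast (by positivity : (1 / (1 + 2 * B) : ℝ) ≠ 0)
  have hinj : ∀ i ∈ s, ∀ j ∈ s, Complex.exp (μ i * h) = Complex.exp (μ j * h) → i = j := by
    intro i hi j hj hij
    rw [Complex.exp_eq_exp_iff_exists_int] at hij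
    obtain ⟨n, hn⟩ := hij
    have h1 : (μ i - μ j) * h = n * (2 * Real.pi * Complex.I) := by
      rw [sub_mul, hn]
      ring
    have h2 : ‖(μ i - μ j) * h‖ ≤ 1 := by
      rw [norm_mul, hh, Complex.norm_real, Real.norm_of_nonneg (by positivity)]
      have h3 : ‖μ i - μ j‖ ≤ 1 + 2 * B := by
        have := norm_sub_le (μ i) (μ j)
        have := hB i hi
        have := hB j hj
        linarith
      rw [mul_one_div, div_le_one hpos]
      exact h3
    have h4 : n = 0 := by
      by_contra hn0
      have h5 : (1 : ℝ) ≤ |(n : ℝ)| := by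
        have := Int.one_le_abs hn0
        exact_mod_cast this
      rw [h1, norm_mul, norm_mul, norm_mul, Complex.norm_I, Complex.norm_intCast, Complex.norm_real,
        Real.norm_of_nonneg Real.pi_pos.le] at h2
      have h6 : ‖(2 : ℂ)‖ = 2 := by simp
      rw [h6] at h2
      have := Real.pi_gt_three
      nlinarith
    rw [h4, Int.cast_zero, zero_mul, mul_eq_zero] at h1
    rcases h1 with h1 | h1
    · exact hμ hi hj (sub_eq_zero.1 h1)
    · exact absurd h1 hh0
  -- regroup by eigenvalues: use the independence over the image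
  have hind := (iSupIndep_iff_finsetSum_eq_zero_imp_eq_zero _).1
    ((tr h).independent_maxGenEigenspace)
  set e : ι → ℂ := fun i => Complex.exp (μ i * h) with he
  have hein : Set.InjOn e s := fun i hi j hj hij => hinj i hi j hj hij
  -- inverse of e
  let v : ℂ → (ℂ → ℂ) := fun c => ∑ i ∈ s with e i = c, ep (q i) (μ i)
  have hv1 : ∀ c ∈ s.image e, v c ∈ (tr h).maxGenEigenspace c := by
    intro c _
    refine Submodule.sum_mem _ fun i hi => ?_
    rw [Finset.mem_filter] at hi
    rw [← hi.2]
    exact mem_gen h (μ i) ((q i).natDegree + 1) (q i) (fun _ => Nat.lt_succ_self _)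
  have hv2 : ∑ c ∈ s.image e, v c = 0 := by
    have : ∑ c ∈ s.image e, v c = ∑ i ∈ s, ep (q i) (μ i) :=
      Finset.sum_fiberwise_of_maps_to (fun i hi => Finset.mem_image_of_mem e hi) _
    rw [this]
    funext t
    rw [Finset.sum_apply]
    exact h0 t
  intro i hi t
  have h1 := hind (s.image e) v hv1 hv2 (e i) (Finset.mem_image_of_mem e hi)
  have h2 : v (e i) = ep (q i) (μ i) := by
    have : s.filter (fun j => e j = e i) = {i} := by
      ext j
      rw [Finset.mem_filter, Finset.mem_singleton]
      constructor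
      · rintro ⟨hj, hji⟩
        exact hein hj hi hji
      · rintro rfl
        exact ⟨hi, rfl⟩
    simp only [v]
    rw [this, Finset.sum_singleton]
  rw [h2] at h1
  have h3 := congrFun h1 t
  simp only [ep, Pi.zero_apply, mul_eq_zero] at h3
  rcases h3 with h3 | h3
  · exact h3
  · exact absurd h3 (Complex.exp_ne_zero _)

end one

/-- a direction in which finitely many vectors have different coordinates -/
lemma exists_dir {s : ℕ} (Λ : Finset (Fin s → ℂ)) :
    ∃ d : Fin s → ℂ, Set.InjOn (fun l : Fin s → ℂ => ∑ i, l i * d i) Λ := by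
  classical
  let P : (Fin s → ℂ) → (Fin s → ℂ) → ℂ[X] := fun l l' => ∑ i : Fin s, C (l i - l' i) * X ^ (i : ℕ)
  have hP : ∀ l l', l ≠ l' → P l l' ≠ 0 := by
    intro l l' hne h0
    apply hne
    funext i
    have h1 := congrArg (fun p => p.coeff (i : ℕ)) h0
    simp only [P, finsetSum_coeff, coeff_C_mul, coeff_X_pow, coeff_zero, mul_ite, mul_one,
      mul_zero] at h1
    rw [Finset.sum_eq_single i] at h1
    · simpa [sub_eq_zero] using h1
    · intro j _ hj
      rw [if_neg]
      intro h
      exact hj (Fin.ext h.symm)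
    · intro h
      exact absurd (Finset.mem_univ _) h
  let T : Finset ℂ := ((Λ ×ˢ Λ).filter fun x => x.1 ≠ x.2).biUnion fun x => (P x.1 x.2).roots.toFinset
  obtain ⟨x, hx⟩ := Infinite.exists_notMem_finset T
  refine ⟨fun i => x ^ (i : ℕ), ?_⟩
  intro l hl l' hl' hll
  by_contra hne
  apply hx
  simp only [T, Finset.mem_biUnion, Finset.mem_filter, Finset.mem_product, Multiset.mem_toFinset]
  refine ⟨(l, l'), ⟨⟨hl, hl'⟩, hne⟩, ?_⟩
  rw [mem_roots (hP l l' hne), IsRoot.def]
  simp only [P, eval_finsetSum, eval_mul, eval_C, eval_pow, eval_X]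
  simp only at hll
  rw [← sub_eq_zero, ← Finset.sum_sub_distrib] at hll
  rw [← hll]
  exact Finset.sum_congr rfl fun i _ => by ring

/-- a function on `ℂ^s`, holomorphic in each variable, which vanishes on the real cube is zero -/
lemma ident {s : ℕ} (G : (Fin s → ℂ) → ℂ)
    (hG : ∀ (u : Fin s → ℂ) (i : Fin s), Differentiable ℂ fun z => G (Function.update u i z))
    (h0 : ∀ τ : Fin s → ℝ, ‖τ‖ ≤ 1 → G (fun i => (τ i : ℂ)) = 0) (u : Fin s → ℂ) : G u = 0 := by
  classical
  have key : ∀ (A : Finset (Fin s)) (u : Fin s → ℂ),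
      (∀ i ∉ A, ∃ t : ℝ, |t| ≤ 1 ∧ u i = t) → G u = 0 := by
    intro A
    induction A using Finset.induction_on with
    | empty =>
      intro u hu
      choose t ht using fun i => hu i (Finset.notMem_empty i)
      have h1 : u = fun i => ((t i : ℝ) : ℂ) := funext fun i => (ht i).2
      rw [h1]
      apply h0
      rw [pi_norm_le_iff_of_nonneg zero_le_one]
      intro i
      rw [Real.norm_eq_abs]
      exact (ht i).1
    | insert i A hiA ih =>
      intro u hu
      have h1 : AnalyticOnNhd ℂ (fun z => G (Function.update u i z)) Set.univ :=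
        (hG u i).differentiableOn.analyticOnNhd isOpen_univ
      have h2 : ∃ᶠ z : ℂ in 𝓝[≠] 0, G (Function.update u i z) = 0 := by
        have h3 : ∀ z : ℝ, |z| ≤ 1 → G (Function.update u i z) = 0 := by
          intro z hz
          apply ih
          intro j hj
          by_cases hji : j = i
          · subst hji
            exact ⟨z, hz, by simp⟩
          · rw [Function.update_of_ne hji]
            exact hu j (by
              rw [Finset.mem_insert]
              push Not
              exact ⟨hji, hj⟩)
        rw [Filter.frequently_iff]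
        intro U hU
        rw [mem_nhdsWithin_iff_exists_mem_nhds_inter] at hU
        obtain ⟨V, hV, hVU⟩ := hU
        obtain ⟨ε, hε, hεV⟩ := Metric.mem_nhds_iff.1 hV
        refine ⟨((min 1 (ε / 2) : ℝ) : ℂ), hVU ⟨hεV ?_, ?_⟩, ?_⟩
        · rw [Metric.mem_ball, dist_zero_right, Complex.norm_real, Real.norm_of_nonneg
            (by positivity)]
          have := min_le_right (1 : ℝ) (ε / 2)
          linarith
        · simp only [Set.mem_compl_iff, Set.mem_singleton_iff]
          have : (0 : ℝ) < min 1 (ε / 2) := by positivity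
          exact_mod_cast this.ne'
        · apply h3
          rw [abs_of_nonneg (by positivity)]
          exact min_le_left _ _
      have h4 := h1.eqOn_zero_of_preconnected_of_frequently_eq_zero isPreconnected_univ
        (Set.mem_univ 0) h2 (Set.mem_univ (u i))
      simpa using h4
  exact key Finset.univ u (fun i hi => absurd (Finset.mem_univ i) hi)

theorem t_UNIT2 : S_UNIT2 := by
  classical
  intro s S M hM a ha
  by_contra hcon
  push Not at hcon
  apply ha
  -- the function
  let F : (Fin s → ℂ) → ℂ := fun w =>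
    ∑ j, a j * ((∏ i, w i ^ (j.1.2 i)) * Complex.exp (∑ i, j.1.1 i * w i))
  have hF : ∀ τ : Fin s → ℝ, ‖τ‖ ≤ 1 → F (mv M τ) = 0 := hcon
  have hFd : Differentiable ℂ F := by
    refine Differentiable.fun_sum fun j _ => ?_
    refine Differentiable.const_mul ?_ _
    have e1 : Differentiable ℂ fun w : Fin s → ℂ => ∏ i, w i ^ (j.1.2 i) := by
      have e2 : ∀ i : Fin s, Differentiable ℂ fun w : Fin s → ℂ => w i ^ (j.1.2 i) :=
        fun i => (differentiable_apply i).pow _
      have e4 : ∀ A : Finset (Fin s), Differentiable ℂ fun w : Fin s → ℂ =>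
          ∏ i ∈ A, w i ^ (j.1.2 i) := by
        intro A
        induction A using Finset.induction_on with
        | empty => simp
        | insert b A hb ih =>
          simp only [Finset.prod_insert hb]
          exact (e2 b).mul ih
      exact e4 Finset.univ
    have e3 : Differentiable ℂ fun w : Fin s → ℂ => Complex.exp (∑ i, j.1.1 i * w i) := by
      refine Differentiable.cexp ?_
      exact Differentiable.fun_sum fun i _ => (differentiable_apply i).const_mul _
    exact e1.mul e3
  have hG : ∀ u : Fin s → ℂ, F (M.mulVec u) = 0 := by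
    apply ident (fun u => F (M.mulVec u))
    · intro u i
      have h1 : Differentiable ℂ fun z : ℂ => Function.update u i z := by
        rw [differentiable_pi]
        intro j
        by_cases hji : j = i
        · subst hji
          simp only [Function.update_self]
          exact differentiable_id
        · simp only [Function.update_of_ne hji]
          exact differentiable_const _
      have h2 : Differentiable ℂ fun u : Fin s → ℂ => M.mulVec u :=
        (Matrix.mulVecLin M).toContinuousLinearMap.differentiable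
      exact hFd.comp (h2.comp h1)
    · intro τ hτ
      exact hF τ hτ
  have hF0 : ∀ w, F w = 0 := by
    intro w
    have h1 := hG (M⁻¹.mulVec w)
    rwa [Matrix.mulVec_mulVec, Matrix.mul_nonsing_inv _ (isUnit_iff_ne_zero.2 hM),
      Matrix.one_mulVec] at h1
  -- frequencies
  let Λ : Finset (Fin s → ℂ) := S.image Prod.fst
  obtain ⟨d, hd⟩ := exists_dir Λ
  have hpoly : ∀ l ∈ Λ, ∀ w₀ : Fin s → ℂ,
      ∑ j : {x // x ∈ S} with j.1.1 = l, a j * ∏ i, w₀ i ^ (j.1.2 i) = 0 := by
    intro l hl w₀
    let q : (Fin s → ℂ) → ℂ[X] := fun l' =>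
      ∑ j : {x // x ∈ S} with j.1.1 = l', C (a j * Complex.exp (∑ i, l' i * w₀ i)) *
        ∏ i, (C (w₀ i) + X * C (d i)) ^ (j.1.2 i)
    have h1 := one_var Λ (fun l : Fin s → ℂ => ∑ i, l i * d i) hd q (by
      intro t
      have h2 : ∑ l' ∈ Λ, (q l').eval t * Complex.exp ((∑ i, l' i * d i) * t) =
          F (fun i => w₀ i + t * d i) := by
        have h3 : F (fun i => w₀ i + t * d i) = ∑ l' ∈ Λ, ∑ j : {x // x ∈ S} with j.1.1 = l',
            a j * ((∏ i, (w₀ i + t * d i) ^ (j.1.2 i)) *
              Complex.exp (∑ i, j.1.1 i * (w₀ i + t * d i))) := by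
          symm
          exact Finset.sum_fiberwise_of_maps_to
            (fun j _ => Finset.mem_image_of_mem Prod.fst j.2) _
        rw [h3]
        refine Finset.sum_congr rfl fun l' _ => ?_
        simp only [q, eval_finsetSum, eval_mul, eval_C, eval_prod, eval_pow, eval_add, eval_X]
        rw [Finset.sum_mul]
        refine Finset.sum_congr rfl fun j hj => ?_
        rw [Finset.mem_filter] at hj
        have h4 : ∑ i, j.1.1 i * (w₀ i + t * d i) =
            (∑ i, l' i * w₀ i) + (∑ i, l' i * d i) * t := by
          rw [hj.2, Finset.sum_mul, ← Finset.sum_add_distrib]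
          exact Finset.sum_congr rfl fun i _ => by ring
        rw [h4, Complex.exp_add]
        ring
      rw [h2]
      exact hF0 _) l hl 0
    simp only [q, eval_finsetSum, eval_mul, eval_C, eval_prod, eval_pow, eval_add, eval_X,
      zero_mul, add_zero] at h1
    have h5 : Complex.exp (∑ i, l i * w₀ i) *
        ∑ j : {x // x ∈ S} with j.1.1 = l, a j * ∏ i, w₀ i ^ (j.1.2 i) = 0 := by
      rw [← h1, Finset.mul_sum]
      exact Finset.sum_congr rfl fun j _ => by ring
    exact (mul_eq_zero.1 h5).resolve_left (Complex.exp_ne_zero _)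
  funext j₀
  have h1 : (∑ j : {x // x ∈ S} with j.1.1 = j₀.1.1,
      MvPolynomial.monomial j.1.2 (a j) : MvPolynomial (Fin s) ℂ) = 0 := by
    apply MvPolynomial.funext
    intro w
    rw [map_sum, map_zero, ← hpoly j₀.1.1 (Finset.mem_image_of_mem Prod.fst j₀.2) w]
    refine Finset.sum_congr rfl fun j _ => ?_
    rw [MvPolynomial.eval_monomial, Finsupp.prod_fintype _ _ (fun i => pow_zero _)]
  have h2 := congrArg (MvPolynomial.coeff j₀.1.2) h1
  rw [MvPolynomial.coeff_sum, MvPolynomial.coeff_zero] at h2
  have h4 : ∀ j : {x // x ∈ S}, j.1.1 = j₀.1.1 → j ≠ j₀ →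
      MvPolynomial.coeff j₀.1.2 (MvPolynomial.monomial j.1.2 (a j)) = 0 := by
    intro j hj hne
    rw [MvPolynomial.coeff_monomial]
    refine if_neg fun h3 => hne ?_
    apply Subtype.ext
    exact Prod.ext hj h3
  have h5 := Finset.sum_eq_single (s := Finset.univ.filter fun j : {x // x ∈ S} => j.1.1 = j₀.1.1)
    (f := fun j => MvPolynomial.coeff j₀.1.2 (MvPolynomial.monomial j.1.2 (a j))) j₀
    (fun j hj hne => h4 j (Finset.mem_filter.1 hj).2 hne)
    (fun h => absurd (show j₀ ∈ Finset.univ.filter
      (fun j : {x // x ∈ S} => j.1.1 = j₀.1.1) from by simp) h)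
  rw [h5, MvPolynomial.coeff_monomial, if_pos rfl] at h2
  exact h2

end Pool.Agent.K3h48.EX
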